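import Mathlib

/-!
# Lower bound for detecting `{0,1,3}`-valued vectors

The matrix `Mx` has rows `(0,0)`, `(0,1)`, `(0,3)`.  We show that a set `S` of queries that
separates all vectors of `{0,1,3}^n` also separates all vectors of `{0,1,2,3}^n`, because both
digit sets have the same difference set, and deduce `4^n ≤ (18 √n)^|S|`.
-/

set_option autoImplicit false

open Finset

namespace Pool.Agent.Lib.MP_fef54c_co

/-- The admissible matrix with rows `(0,0)`, `(0,1)`, `(0,3)`. -/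
def Mx : Matrix (Fin 3) (Fin 2) ℤ := !![0, 0; 0, 1; 0, 3]

/-- The digit attached to a row. -/
def dig (a : Fin 3) : ℤ := Mx a 1

/-- indicator of the second column -/
def ind (t : Fin 2) : ℤ := if t = 1 then 1 else 0

lemma Mx_eq (a : Fin 3) (t : Fin 2) : Mx a t = ind t * dig a := by
  fin_cases a <;> fin_cases t <;> simp [Mx, ind, dig]

lemma dig_table : ∀ i j : Fin 4, ∃ a b : Fin 3, dig a - dig b = ((i : ℕ) : ℤ) - ((j : ℕ) : ℤ) := by
  decide

/-- Chosen pair of rows realising a difference. -/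
noncomputable def ra (i j : Fin 4) : Fin 3 := (dig_table i j).choose
noncomputable def rb (i j : Fin 4) : Fin 3 := (dig_table i j).choose_spec.choose

lemma rab (i j : Fin 4) : dig (ra i j) - dig (rb i j) = ((i : ℕ) : ℤ) - ((j : ℕ) : ℤ) :=
  (dig_table i j).choose_spec.choose_spec

/-- separation of three-valued vectors gives separation of four-valued vectors -/
lemma lift_inj {n : ℕ} (S : Finset (Fin n → Fin 2))
    (hS : Function.Injective
      (fun (x : Fin n → Fin 3) (s : S) => ∑ l : Fin n, Mx (x l) ((s : Fin n → Fin 2) l)))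
    (y y' : Fin n → Fin 4)
    (h : ∀ s ∈ S, ∑ l, ind (s l) * ((y l : ℕ) : ℤ) = ∑ l, ind (s l) * ((y' l : ℕ) : ℤ)) :
    y = y' := by
  have key : (fun l => ra (y l) (y' l)) = (fun l => rb (y l) (y' l)) := by
    apply hS
    funext s
    have h1 := h s.1 s.2
    simp only [Mx_eq]
    rw [← sub_eq_zero, ← Finset.sum_sub_distrib] at h1 ⊢
    rw [← h1]
    apply Finset.sum_congr rfl
    intro l _
    rw [← mul_sub, ← mul_sub, rab]
  funext l
  have h2 : ra (y l) (y' l) = rb (y l) (y' l) := congrFun key l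
  have h3 := rab (y l) (y' l)
  rw [h2, sub_self] at h3
  apply Fin.ext
  omega

/-- centred digit -/
def cen (a : Fin 4) : ℝ := 2 * ((a : ℕ) : ℝ) - 3

lemma sum_cen_sq (c e : ℝ) : ∑ a : Fin 4, (c + e * cen a) ^ 2 = 4 * c ^ 2 + 20 * e ^ 2 := by
  simp [Fin.sum_univ_four, cen]
  ring

lemma second_moment : ∀ (n : ℕ) (c : ℝ) (e : Fin n → ℝ),
    ∑ y : Fin n → Fin 4, (c + ∑ l, e l * cen (y l)) ^ 2 = 4 ^ n * (c ^ 2 + 5 * ∑ l, e l ^ 2) := by
  intro n
  induction n with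
  | zero =>
    intro c e
    simp
  | succ n ih =>
    intro c e
    have hc : ∀ (a : Fin 4) (y : Fin n → Fin 4),
        ∑ l : Fin (n + 1), e l * cen ((Fin.cons a y : Fin (n + 1) → Fin 4) l)
          = e 0 * cen a + ∑ i : Fin n, e i.succ * cen (y i) := by
      intro a y
      rw [Fin.sum_univ_succ (n := n)]
      simp
    have he : ∑ l : Fin (n + 1), e l ^ 2 = e 0 ^ 2 + ∑ i : Fin n, e i.succ ^ 2 :=
      Fin.sum_univ_succ (n := n) _
    rw [← (Fin.consEquiv (fun _ : Fin (n+1) => Fin 4)).sum_comp, Fintype.sum_prod_type]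
    have this : ∀ a : Fin 4, ∑ y : Fin n → Fin 4,
        (c + ∑ l : Fin (n + 1), e l * cen ((Fin.cons a y : Fin (n + 1) → Fin 4) l)) ^ 2
        = 4 ^ n * ((c + e 0 * cen a) ^ 2 + 5 * ∑ l : Fin n, e l.succ ^ 2) := by
      intro a
      rw [← ih (c + e 0 * cen a) (fun l => e l.succ)]
      apply Finset.sum_congr rfl
      intro y _
      rw [hc]
      ring
    calc _ = ∑ a : Fin 4, ∑ y : Fin n → Fin 4,
        (c + ∑ l : Fin (n + 1), e l * cen ((Fin.cons a y : Fin (n + 1) → Fin 4) l)) ^ 2 := rfl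
      _ = ∑ a : Fin 4, 4 ^ n * ((c + e 0 * cen a) ^ 2 + 5 * ∑ l : Fin n, e l.succ ^ 2) :=
        Finset.sum_congr rfl (fun a _ => this a)
      _ = 4 ^ n * (∑ a : Fin 4, (c + e 0 * cen a) ^ 2 + 4 * (5 * ∑ l : Fin n, e l.succ ^ 2)) := by
        rw [← Finset.mul_sum, Finset.sum_add_distrib]
        simp
      _ = _ := by
        rw [sum_cen_sq, he]
        ring

/-- a two-sided geometric sum -/
lemma geom_two_sided (ρ : ℝ) (N : ℕ) :
    (1 - ρ) * ∑ z ∈ Finset.Icc (-(N : ℤ)) N, ρ ^ z.natAbs = 1 + ρ - 2 * ρ ^ (N + 1) := by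
  induction N with
  | zero => simp; ring
  | succ N ih =>
    have hI : Finset.Icc (-((N + 1 : ℕ) : ℤ)) ((N + 1 : ℕ) : ℤ)
        = insert (-((N + 1 : ℕ) : ℤ)) (insert ((N + 1 : ℕ) : ℤ) (Finset.Icc (-(N : ℤ)) N)) := by
      ext z
      simp only [Finset.mem_Icc, Finset.mem_insert]
      omega
    have h1 : (-((N + 1 : ℕ) : ℤ)) ∉ insert ((N + 1 : ℕ) : ℤ) (Finset.Icc (-(N : ℤ)) N) := by
      simp only [Finset.mem_Icc, Finset.mem_insert]
      omega
    have h2 : ((N + 1 : ℕ) : ℤ) ∉ Finset.Icc (-(N : ℤ)) N := by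
      simp only [Finset.mem_Icc]
      omega
    rw [hI, Finset.sum_insert h1, Finset.sum_insert h2, mul_add, mul_add, ih]
    simp only [Int.natAbs_neg, Int.natAbs_natCast]
    ring

lemma weight_sum_le (t : ℝ) (ht : 0 < t) (N : ℕ) :
    ∑ z ∈ Finset.Icc (-(N : ℤ)) N, Real.exp (-(|(z : ℝ)| / t)) ≤ 2 * (t + 1) := by
  set ρ : ℝ := Real.exp (-(1 / t)) with hρ
  have hw : ∀ z : ℤ, Real.exp (-(|(z : ℝ)| / t)) = ρ ^ z.natAbs := by
    intro z
    rw [hρ, ← Real.exp_nat_mul]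
    congr 1
    rw [show ((z.natAbs : ℕ) : ℝ) = |(z : ℝ)| by
      rw [Nat.cast_natAbs]; push_cast; rfl]
    ring
  simp only [hw]
  have hpos : 0 < ρ := Real.exp_pos _
  have h1 : ρ ≤ t / (t + 1) := by
    rw [hρ, Real.exp_neg]
    have : 1 / t + 1 ≤ Real.exp (1 / t) := Real.add_one_le_exp _
    have h2 : (0:ℝ) < 1 / t + 1 := by positivity
    calc (Real.exp (1 / t))⁻¹ ≤ (1 / t + 1)⁻¹ := inv_anti₀ h2 this
      _ = t / (t + 1) := by field_simp; ring
  have h3 : 1 / (t + 1) ≤ 1 - ρ := by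
    have : 1 - t / (t + 1) = 1 / (t + 1) := by field_simp; ring
    linarith
  have h4 : 0 < 1 - ρ := lt_of_lt_of_le (by positivity) h3
  have h5 := geom_two_sided ρ N
  have h6 : (1 - ρ) * ∑ z ∈ Finset.Icc (-(N : ℤ)) N, ρ ^ z.natAbs ≤ 2 := by
    rw [h5]
    have : 0 ≤ ρ ^ (N + 1) := by positivity
    linarith
  have h7 : 0 ≤ ∑ z ∈ Finset.Icc (-(N : ℤ)) N, ρ ^ z.natAbs :=
    Finset.sum_nonneg (fun _ _ => by positivity)
  have h8 : 1 / (t + 1) * ∑ z ∈ Finset.Icc (-(N : ℤ)) N, ρ ^ z.natAbs ≤ 2 :=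
    le_trans (mul_le_mul_of_nonneg_right h3 h7) h6
  rw [one_div, inv_mul_le_iff₀ (by positivity)] at h8
  linarith

/-- the integer response of a query -/
def zi {n : ℕ} (s : Fin n → Fin 2) (y : Fin n → Fin 4) : ℤ :=
  ∑ l, ind (s l) * (2 * ((y l : ℕ) : ℤ) - 3)

lemma zi_cast {n : ℕ} (s : Fin n → Fin 2) (y : Fin n → Fin 4) :
    ((zi s y : ℤ) : ℝ) = ∑ l, ((ind (s l) : ℤ) : ℝ) * cen (y l) := by
  simp [zi, cen]

lemma ind_nonneg (t : Fin 2) : 0 ≤ ind t := by unfold ind; split_ifs <;> norm_num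
lemma ind_le (t : Fin 2) : ind t ≤ 1 := by unfold ind; split_ifs <;> norm_num

lemma zi_abs {n : ℕ} (s : Fin n → Fin 2) (y : Fin n → Fin 4) : |zi s y| ≤ ((3 * n : ℕ) : ℤ) := by
  unfold zi
  refine le_trans (Finset.abs_sum_le_sum_abs _ _) ?_
  have : ∀ l ∈ (Finset.univ : Finset (Fin n)),
      |ind (s l) * (2 * ((y l : ℕ) : ℤ) - 3)| ≤ 3 := by
    intro l _
    rw [abs_mul]
    have h1 : |ind (s l)| ≤ 1 := by
      rw [abs_of_nonneg (ind_nonneg _)]; exact ind_le _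
    have h2 : |2 * ((y l : ℕ) : ℤ) - 3| ≤ 3 := by
      have := (y l).isLt
      rw [abs_le]; omega
    calc |ind (s l)| * |2 * ((y l : ℕ) : ℤ) - 3| ≤ 1 * 3 :=
        mul_le_mul h1 h2 (abs_nonneg _) (by norm_num)
      _ = 3 := by norm_num
  refine le_trans (Finset.sum_le_sum this) ?_
  simp
  omega

lemma sq_zi_sum {n : ℕ} (s : Fin n → Fin 2) :
    ∑ y : Fin n → Fin 4, ((zi s y : ℤ) : ℝ) ^ 2 ≤ 4 ^ n * (5 * n) := by
  have h := second_moment n 0 (fun l => ((ind (s l) : ℤ) : ℝ))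
  simp only [zero_add] at h
  simp only [zi_cast]
  rw [h]
  have h1 : ∑ l : Fin n, ((ind (s l) : ℤ) : ℝ) ^ 2 ≤ n := by
    have : ∀ l ∈ (Finset.univ : Finset (Fin n)), ((ind (s l) : ℤ) : ℝ) ^ 2 ≤ 1 := by
      intro l _
      unfold ind
      split_ifs <;> norm_num
    refine le_trans (Finset.sum_le_sum this) ?_
    simp
  have h2 : (0:ℝ) ≤ 4 ^ n := by positivity
  nlinarith [mul_le_mul_of_nonneg_left h1 h2]

/-- the counting inequality -/
lemma count_ineq {n : ℕ} (S : Finset (Fin n → Fin 2))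
    (hS : ∀ y y' : Fin n → Fin 4, (∀ s ∈ S, zi s y = zi s y') → y = y')
    (t : ℝ) (ht : 0 < t) (htn : 5 * (n : ℝ) ≤ t ^ 2) :
    (4 : ℝ) ^ n * Real.exp (-(S.card : ℝ)) ≤ (2 * (t + 1)) ^ S.card := by
  classical
  -- lower bound
  have hlow : ∀ y : Fin n → Fin 4,
      Real.exp (-(S.card : ℝ)) * (1 + S.card - ∑ s ∈ S, (((zi s y : ℤ) : ℝ) ^ 2 / t ^ 2 + 1) / 2)
        ≤ ∏ s : S, Real.exp (-(|((zi s.1 y : ℤ) : ℝ)| / t)) := by
    intro y
    rw [← Real.exp_sum]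
    have h1 : -(∑ s ∈ S, (((zi s y : ℤ) : ℝ) ^ 2 / t ^ 2 + 1) / 2)
        ≤ ∑ s : S, -(|((zi s.1 y : ℤ) : ℝ)| / t) := by
      rw [Finset.sum_neg_distrib, neg_le_neg_iff]
      rw [← Finset.sum_coe_sort S (fun s => (((zi s y : ℤ) : ℝ) ^ 2 / t ^ 2 + 1) / 2)]
      apply Finset.sum_le_sum
      intro s _
      have h2 : (|((zi s.1 y : ℤ) : ℝ)| / t) ^ 2 = ((zi s.1 y : ℤ) : ℝ) ^ 2 / t ^ 2 := by
        rw [div_pow, sq_abs]
      rw [← h2]
      nlinarith [sq_nonneg (|((zi s.1 y : ℤ) : ℝ)| / t - 1)]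
    refine le_trans ?_ (Real.exp_le_exp.mpr h1)
    set Q := ∑ s ∈ S, (((zi s y : ℤ) : ℝ) ^ 2 / t ^ 2 + 1) / 2
    have h3 : Real.exp (-Q) = Real.exp (-(S.card : ℝ)) * Real.exp ((S.card : ℝ) - Q) := by
      rw [← Real.exp_add]; congr 1; ring
    rw [h3]
    apply mul_le_mul_of_nonneg_left _ (Real.exp_pos _).le
    have := Real.add_one_le_exp ((S.card : ℝ) - Q)
    linarith
  have hQ : ∑ y : Fin n → Fin 4, ∑ s ∈ S, ((((zi s y : ℤ) : ℝ) ^ 2 / t ^ 2 + 1) / 2 : ℝ)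
      ≤ (4 : ℝ) ^ n * (S.card : ℝ) := by
    rw [Finset.sum_comm]
    have : ∀ s ∈ S, ∑ y : Fin n → Fin 4, ((((zi s y : ℤ) : ℝ) ^ 2 / t ^ 2 + 1) / 2 : ℝ)
        ≤ (4 : ℝ) ^ n := by
      intro s _
      rw [← Finset.sum_div, Finset.sum_add_distrib, ← Finset.sum_div]
      have h1 := sq_zi_sum s
      have h2 : (∑ y : Fin n → Fin 4, ((zi s y : ℤ) : ℝ) ^ 2) / t ^ 2 ≤ 4 ^ n := by
        rw [div_le_iff₀ (by positivity)]
        refine le_trans h1 ?_
        exact mul_le_mul_of_nonneg_left htn (by positivity)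
      have h3 : ∑ _y : Fin n → Fin 4, (1 : ℝ) = 4 ^ n := by simp
      rw [h3]
      linarith
    refine le_trans (Finset.sum_le_sum this) ?_
    simp [mul_comm]
  have hlow2 : (4 : ℝ) ^ n * Real.exp (-(S.card : ℝ))
      ≤ ∑ y : Fin n → Fin 4, ∏ s : S, Real.exp (-(|((zi s.1 y : ℤ) : ℝ)| / t)) := by
    refine le_trans ?_ (Finset.sum_le_sum (fun y _ => hlow y))
    rw [← Finset.mul_sum, Finset.sum_sub_distrib]
    have h3 : ∑ _y : Fin n → Fin 4, (1 + (S.card : ℝ)) = 4 ^ n * (1 + S.card) := by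
      simp; ring
    rw [h3, mul_comm]
    apply mul_le_mul_of_nonneg_left _ (Real.exp_pos _).le
    linarith
  refine le_trans hlow2 ?_
  -- upper bound
  let φ : (Fin n → Fin 4) → (S → ℤ) := fun y s => zi s.1 y
  have hφ : Function.Injective φ := by
    intro y y' h
    apply hS
    intro s hs
    exact congrFun h ⟨s, hs⟩
  let F : (S → ℤ) → ℝ := fun g => ∏ s : S, Real.exp (-(|((g s : ℤ) : ℝ)| / t))
  have h1 : ∑ y : Fin n → Fin 4, ∏ s : S, Real.exp (-(|((zi s.1 y : ℤ) : ℝ)| / t))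
      = ∑ g ∈ Finset.univ.image φ, F g := by
    rw [Finset.sum_image (fun a _ b _ h => hφ h)]
  rw [h1]
  have h2 : Finset.univ.image φ ⊆ Fintype.piFinset
      (fun _ : S => Finset.Icc (-((3 * n : ℕ) : ℤ)) ((3 * n : ℕ) : ℤ)) := by
    intro g hg
    rw [Finset.mem_image] at hg
    obtain ⟨y, _, rfl⟩ := hg
    rw [Fintype.mem_piFinset]
    intro s
    rw [Finset.mem_Icc]
    exact abs_le.mp (zi_abs s.1 y)
  refine le_trans (Finset.sum_le_sum_of_subset_of_nonneg h2 (fun g _ _ => ?_)) ?_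
  · exact Finset.prod_nonneg (fun _ _ => (Real.exp_pos _).le)
  · have h3 := Finset.prod_univ_sum
      (fun _ : S => Finset.Icc (-((3 * n : ℕ) : ℤ)) ((3 * n : ℕ) : ℤ))
      (fun _ z => Real.exp (-(|((z : ℤ) : ℝ)| / t)))
    rw [← h3, Finset.prod_const, Finset.card_univ, Fintype.card_coe]
    apply pow_le_pow_left₀
    · exact Finset.sum_nonneg (fun _ _ => (Real.exp_pos _).le)
    · exact weight_sum_le t ht (3 * n)

end Pool.Agent.Lib.MP_fef54c_co
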