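import Pool.Agent.Lib.MP_fef54c_co.Detect

/-!
# MP_fef54c_co: the lower bound for the three-row matrix (as in Pool/Agent/S12636.lean)
-/

set_option autoImplicit false

open Filter Topology

namespace Pool.Agent.Lib.MP_fef54c_co.LowM

lemma lower (n : ℕ) (hn : 1 ≤ n) (S : Finset (Fin n → Fin 2))
    (hS : Function.Injective
      (fun (x : Fin n → Fin 3) (s : S) => ∑ l : Fin n, Mx (x l) ((s : Fin n → Fin 2) l))) :
    (n : ℝ) * Real.log 4 ≤ (S.card : ℝ) * (3 + Real.log n / 2) := by
  have hn0 : (1 : ℝ) ≤ n := by exact_mod_cast hn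
  have hsep : ∀ y y' : Fin n → Fin 4, (∀ s ∈ S, zi s y = zi s y') → y = y' := by
    intro y y' h
    apply lift_inj S hS
    intro s hs
    have h1 := h s hs
    have h2 : ∀ z : Fin n → Fin 4,
        zi s z = 2 * (∑ l, ind (s l) * ((z l : ℕ) : ℤ)) - 3 * ∑ l, ind (s l) := by
      intro z
      unfold zi
      rw [Finset.mul_sum, Finset.mul_sum, ← Finset.sum_sub_distrib]
      apply Finset.sum_congr rfl
      intro l _
      ring
    rw [h2, h2] at h1
    linarith
  have hsq : Real.sqrt (5 * n) ^ 2 = 5 * n := Real.sq_sqrt (by positivity)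
  have hpos : 0 < Real.sqrt (5 * n) := Real.sqrt_pos.mpr (by positivity)
  have h := count_ineq S hsep (Real.sqrt (5 * n)) hpos hsq.ge
  have hs1 : (1 : ℝ) ≤ Real.sqrt n := by
    rw [Real.one_le_sqrt]; exact hn0
  have hsnn : Real.sqrt n ^ 2 = n := Real.sq_sqrt (by positivity)
  have h5 : Real.sqrt (5 * n) ≤ 2.25 * Real.sqrt n := by
    rw [Real.sqrt_le_left (by positivity)]
    nlinarith
  have he : (6.5 : ℝ) ≤ Real.exp 2 := by
    have h1 : (2.7 : ℝ) ≤ Real.exp 1 := by
      have := Real.exp_one_gt_d9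
      linarith
    have h2 : Real.exp 2 = Real.exp 1 ^ 2 := by
      rw [← Real.exp_nat_mul]; norm_num
    rw [h2]
    nlinarith
  have hsl : Real.sqrt n = Real.exp (Real.log n / 2) := by
    rw [Real.sqrt_eq_rpow, Real.rpow_def_of_pos (by linarith)]
    congr 1
    ring
  have hb : 2 * (Real.sqrt (5 * n) + 1) ≤ Real.exp (2 + Real.log n / 2) := by
    rw [Real.exp_add, ← hsl]
    have : 2 * (Real.sqrt (5 * n) + 1) ≤ 6.5 * Real.sqrt n := by linarith
    refine le_trans this ?_
    exact mul_le_mul_of_nonneg_right he (by positivity)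
  have h6 : (4 : ℝ) ^ n * Real.exp (-(S.card : ℝ))
      ≤ Real.exp ((S.card : ℝ) * (2 + Real.log n / 2)) := by
    refine le_trans h ?_
    rw [Real.exp_nat_mul]
    exact pow_le_pow_left₀ (by positivity) hb _
  have h7 : (4 : ℝ) ^ n = Real.exp ((n : ℝ) * Real.log 4) := by
    rw [Real.exp_nat_mul, Real.exp_log (by norm_num)]
  rw [h7, ← Real.exp_add, Real.exp_le_exp] at h6
  linarith

lemma separable (n : ℕ) : Function.Injective
      (fun (x : Fin n → Fin 3) (s : (Finset.univ : Finset (Fin n → Fin 2))) =>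
        ∑ l : Fin n, Mx (x l) ((s : Fin n → Fin 2) l)) := by
  intro x x' h
  funext l
  have h1 := congrFun h ⟨fun k => if k = l then 1 else 0, Finset.mem_univ _⟩
  simp only [Mx_eq] at h1
  have h2 : ∀ z : Fin n → Fin 3,
      ∑ k : Fin n, ind (if k = l then 1 else 0) * dig (z k) = dig (z l) := by
    intro z
    rw [Finset.sum_eq_single l]
    · simp [ind]
    · intro b _ hb
      simp [ind, hb]
    · simp
  rw [h2, h2] at h1
  revert h1
  generalize x l = a
  generalize x' l = b
  revert a b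
  decide

end Pool.Agent.Lib.MP_fef54c_co.LowM
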