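import Pool.Agent.Lib.MP_fef54c_co.Detect

/-!
# Definitions of MP_fef54c_co written out literally, and the transfer between three and four rows
-/

set_option autoImplicit false

open Filter Topology

namespace Pool.Agent.Lib.MP_fef54c_co

/-- The map `M_S : [p]^n → ℤ^S`, `(M_S (i₁, …, iₙ))_s = M_{i₁,s₁} + … + M_{iₙ,sₙ}`. -/
def MS {p q n : ℕ} (M : Matrix (Fin p) (Fin q) ℤ) (S : Set (Fin n → Fin q)) (i : Fin n → Fin p) :
    S → ℤ :=
  fun s => ∑ l : Fin n, M (i l) (s.1 l)

/-- `m(M, n)`: the least size of a set `S ⊆ [q]^n` for which `M_S` is injective (`∞` if there is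
none). -/
noncomputable def mdim {p q : ℕ} (M : Matrix (Fin p) (Fin q) ℤ) (n : ℕ) : ℕ∞ :=
  sInf {k : ℕ∞ | ∃ S : Set (Fin n → Fin q), Function.Injective (MS M S) ∧ S.encard = k}

/-- `M` is admissible: `p ≥ 2` and the difference of two distinct rows is not a scalar multiple of
the all-ones row vector. -/
def Admissible {p q : ℕ} (M : Matrix (Fin p) (Fin q) ℤ) : Prop :=
  2 ≤ p ∧ ∀ i j : Fin p, i ≠ j → ¬ ∃ c : ℝ, ∀ t : Fin q, ((M i t : ℝ) - (M j t : ℝ)) = c

/-- The matrix with rows `(0,0)`, `(0,1)`, `(0,3)`. -/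
def M3 : Matrix (Fin 3) (Fin 2) ℤ := !![0, 0; 0, 1; 0, 3]

/-- The matrix with rows `(0,0)`, `(0,1)`, `(0,2)`, `(0,3)`. -/
def M4 : Matrix (Fin 4) (Fin 2) ℤ := !![0, 0; 0, 1; 0, 2; 0, 3]

namespace OwnM

lemma adm3 : Admissible M3 := by
  refine ⟨by norm_num, ?_⟩
  rintro i j hij ⟨c, hc⟩
  have h0 := hc 0
  have h1 := hc 1
  have h2 : ((M3 i 0 : ℝ) - (M3 j 0 : ℝ)) = (M3 i 1 : ℝ) - (M3 j 1 : ℝ) := by rw [h0, h1]
  have h3 : M3 i 0 - M3 j 0 = M3 i 1 - M3 j 1 := by exact_mod_cast h2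
  clear hc h0 h1 h2
  revert i j
  decide

/-- The embedding of the rows of `M3` in those of `M4`. -/
def emb : Fin 3 → Fin 4 := ![0, 1, 3]

lemma emb_inj : Function.Injective emb := by decide

lemma emb_row (a : Fin 3) (t : Fin 2) : M3 a t = M4 (emb a) t := by
  fin_cases a <;> fin_cases t <;> rfl

lemma M4_eq (a : Fin 4) (t : Fin 2) : M4 a t = ind t * ((a : ℕ) : ℤ) := by
  fin_cases a <;> fin_cases t <;> simp [M4, ind]

lemma inj_iff (n : ℕ) (S : Set (Fin n → Fin 2)) :
    Function.Injective (MS M3 S) ↔ Function.Injective (MS M4 S) := by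
  constructor
  · intro h y y' hy
    have hfin : S.Finite := Set.toFinite S
    refine lift_inj hfin.toFinset ?_ y y' ?_
    · intro x x' hx
      apply h
      funext s
      exact congrFun hx ⟨s.1, hfin.mem_toFinset.2 s.2⟩
    · intro s hs
      have h1 := congrFun hy ⟨s, hfin.mem_toFinset.1 hs⟩
      unfold MS at h1
      simp only [M4_eq] at h1
      exact h1
  · intro h x x' hx
    have h1 : (fun l => emb (x l)) = fun l => emb (x' l) := by
      apply h
      funext s
      have h2 := congrFun hx s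
      unfold MS at h2 ⊢
      simp only [emb_row] at h2
      exact h2
    funext l
    exact emb_inj (congrFun h1 l)

lemma mdim_eq (n : ℕ) : mdim M3 n = mdim M4 n := by
  unfold mdim
  simp only [inj_iff n]

end OwnM

end Pool.Agent.Lib.MP_fef54c_co
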